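import Pool.Agent.Helper50.Tm.Goals

/-!
Packet TM-TR2 of project TAME (MP_f619a5_ag).
-/

open CategoryTheory AlgebraicGeometry Limits TensorProduct MonoidalCategory
open scoped Obj

namespace Pool.Agent.Helper49.Tm

open Pool.Agent.Helper50.Tm
open Pool.Agent.Helper40.Nm (specOver homGroup specialFibre)

theorem cpt_redk {R : Type} [CommRing R] [IsLocalRing R] {G : Over (Spec (CommRingCat.of R))}
    (s : Pts G R) :
    cpt s = (redk s).left (IsLocalRing.closedPoint (IsLocalRing.ResidueField R)) := by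
  rw [redk, Pts.map_left]
  rw [Scheme.Hom.comp_apply]
  rw [cpt]
  congr 1
  exact (IsLocalRing.comap_closedPoint (IsLocalRing.residue R)).symm

theorem tmul_one_eq_zero {R S : Type} [CommRing R] [IsLocalRing R] [CommRing S] [Algebra R S]
    (i : S) (hi : i ∈ (IsLocalRing.maximalIdeal R).map (algebraMap R S)) :
    (i ⊗ₜ[R] (1 : IsLocalRing.ResidueField R)) = 0 := by
  refine Submodule.span_induction (p := fun i _ => (i ⊗ₜ[R] (1 : IsLocalRing.ResidueField R)) = 0)
    ?_ ?_ ?_ ?_ hi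
  · rintro _ ⟨r, hr, rfl⟩
    have h1 : (algebraMap R S r) = r • (1 : S) := Algebra.algebraMap_eq_smul_one r
    rw [h1, TensorProduct.smul_tmul, Algebra.smul_def]
    have h2 : algebraMap R (IsLocalRing.ResidueField R) r = 0 := by
      exact (IsLocalRing.residue_eq_zero_iff r).mpr hr
    rw [h2, zero_mul, TensorProduct.tmul_zero]
  · exact TensorProduct.zero_tmul _ _
  · intro x y _ _ hx hy
    rw [TensorProduct.add_tmul, hx, hy, add_zero]
  · intro a x _ hx
    have : (a • x) ⊗ₜ[R] (1 : IsLocalRing.ResidueField R) =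
        (a ⊗ₜ[R] (1 : IsLocalRing.ResidueField R)) *
          (x ⊗ₜ[R] (1 : IsLocalRing.ResidueField R)) := by
      rw [Algebra.TensorProduct.tmul_mul_tmul, mul_one, smul_eq_mul]
    rw [this, hx, mul_zero]

theorem exists_weilPt {R S B W : Type} [CommRing R] [CommRing S] [Algebra R S] [CommRing B]
    [Algebra S B] [CommRing W] [Algebra R W] (u : B →ₐ[S] S ⊗[R] W) (hu : IsWeil R S B W u)
    (ψ : B →ₐ[S] S) : ∃ w : W →ₐ[R] R, weilPt u w = ψ ∧
      ∀ b, (Algebra.TensorProduct.map (AlgHom.id S S) w) (u b) = ψ b ⊗ₜ[R] (1 : R) := by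
  obtain ⟨w, hw⟩ := (hu R).2 ((Algebra.TensorProduct.rid R S S).symm.toAlgHom.comp ψ)
  refine ⟨w, ?_, ?_⟩
  · ext b
    have := DFunLike.congr_fun hw b
    change (Algebra.TensorProduct.map (AlgHom.id S S) w) (u b) =
      (Algebra.TensorProduct.rid R S S).symm (ψ b) at this
    change (Algebra.TensorProduct.rid R S S)
      ((Algebra.TensorProduct.map (AlgHom.id S S) w) (u b)) = _
    rw [this]
    exact AlgEquiv.apply_symm_apply _ _
  · intro b
    have := DFunLike.congr_fun hw b
    exact this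

theorem gTR2 (hCHART : CHART) (hWEILE : WEILE) (hWEILS : WEILS) (hTREX : TREX)
    (hNORM : NORM) : TR2 := by
  intro K R M S N _ _ _ _ _ _ _ _ _ _ _ _ _ _ _ _ _ _ _ _ _ _ X _ _ 𝒢 ℋ x y hxy hs
  set q := Ideal.Quotient.mkₐ S ((IsLocalRing.maximalIdeal R).map (algebraMap R S)) with hq
  have hI : (IsLocalRing.maximalIdeal R).map (algebraMap R S) ≤ IsLocalRing.maximalIdeal S :=
    Ideal.map_le_iff_le_comap.mpr (fun r hr => by
      rw [Ideal.mem_comap, IsLocalRing.mem_maximalIdeal]
      intro h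
      exact hr ((isUnit_map_iff (algebraMap R S) r).mp h))
  -- the closed points
  have hredk : redk (sec ℋ x) = redk (1 : Pts ℋ.G S) := by
    let ρ : (S ⧸ (IsLocalRing.maximalIdeal R).map (algebraMap R S)) →ₐ[S]
        IsLocalRing.ResidueField S :=
      Ideal.Quotient.liftₐ _ (Algebra.ofId S (IsLocalRing.ResidueField S)) (fun a ha =>
        (IsLocalRing.residue_eq_zero_iff a).mpr (hI ha))
    have hρ : Algebra.ofId S (IsLocalRing.ResidueField S) = ρ.comp q := by
      ext
    rw [redk, redk, hρ, Pts.map_comp, Pts.map_comp, hs, Pts.map_one q]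
  have hcpt : cpt (sec ℋ x) = cpt (1 : Pts ℋ.G S) := by
    rw [cpt_redk, cpt_redk, hredk]
  obtain ⟨B, _, _, j, hsm, hoi, hx, hpts, hinj⟩ :=
    hCHART S ℋ.G ℋ.smooth (cpt (1 : Pts ℋ.G S))
  obtain ⟨ψ, hψ⟩ := hpts (sec ℋ x) (hcpt ▸ hx)
  obtain ⟨ψ₁, hψ₁⟩ := hpts 1 hx
  have hqψ : q.comp ψ = q.comp ψ₁ := by
    apply hinj
    rw [Pts.map_comp, Pts.map_comp, hψ, hψ₁, hs, Pts.map_one]
  have hdiff : ∀ b, ψ b - ψ₁ b ∈ (IsLocalRing.maximalIdeal R).map (algebraMap R S) := by
    intro b
    have := DFunLike.congr_fun hqψ b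
    exact (Ideal.Quotient.mk_eq_mk_iff_sub_mem _ _).mp this
  obtain ⟨W, _, _, u, hfp, hu⟩ := hWEILE R S B
  have hfs : Algebra.FormallySmooth R W := hWEILS R S B W u hu
  have hsmW : Algebra.Smooth R W := ⟨hfs, hfp⟩
  obtain ⟨v, hv⟩ := hNORM K R M S N X 𝒢 ℋ B W u j
  obtain ⟨w, hw, hw'⟩ := exists_weilPt u hu ψ
  obtain ⟨w₁, hw₁, hw₁'⟩ := exists_weilPt u hu ψ₁
  obtain ⟨-, -, Tr, hTr⟩ := hTREX K M N X
  have h1 : (sec 𝒢).symm (v.map w) = y := by
    have h := hv w
    rw [hw, hψ, MulEquiv.symm_apply_apply, hTr] at h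
    rw [hTr] at hxy
    rw [← h, hxy]
  have h2 : (sec 𝒢).symm (v.map w₁) = 1 := by
    have h := hv w₁
    rw [hw₁, hψ₁, map_one, hTr, map_one] at h
    exact h.symm
  have h3 : sec 𝒢 y = v.map w := by
    rw [← h1, MulEquiv.apply_symm_apply]
  have h4 : v.map w₁ = 1 := by
    rw [← MulEquiv.apply_symm_apply (sec 𝒢) (v.map w₁), h2, map_one]
  have h5 : (Algebra.ofId R (IsLocalRing.ResidueField R)).comp w =
      (Algebra.ofId R (IsLocalRing.ResidueField R)).comp w₁ := by
    apply (hu (IsLocalRing.ResidueField R)).1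
    ext b
    have key : ∀ (f : W →ₐ[R] R) (z : S ⊗[R] W),
        (Algebra.TensorProduct.map (AlgHom.id S S)
          ((Algebra.ofId R (IsLocalRing.ResidueField R)).comp f)) z =
        (Algebra.TensorProduct.map (AlgHom.id S S)
          (Algebra.ofId R (IsLocalRing.ResidueField R)))
          ((Algebra.TensorProduct.map (AlgHom.id S S) f) z) := by
      intro f z
      induction z using TensorProduct.induction_on with
      | zero => simp only [map_zero]
      | tmul a c => rfl
      | add a c ha hc => simp only [map_add, ha, hc]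
    change (Algebra.TensorProduct.map (AlgHom.id S S)
          ((Algebra.ofId R (IsLocalRing.ResidueField R)).comp w)) (u b) =
        (Algebra.TensorProduct.map (AlgHom.id S S)
          ((Algebra.ofId R (IsLocalRing.ResidueField R)).comp w₁)) (u b)
    rw [key, key, hw', hw₁']
    rw [Algebra.TensorProduct.map_tmul, Algebra.TensorProduct.map_tmul]
    have h6 := tmul_one_eq_zero (ψ b - ψ₁ b) (hdiff b)
    rw [TensorProduct.sub_tmul, sub_eq_zero] at h6
    simp only [map_one]
    exact h6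
  rw [h3]
  calc redk (v.map w) = v.map ((Algebra.ofId R (IsLocalRing.ResidueField R)).comp w) :=
        (Pts.map_comp _ _ _).symm
    _ = v.map ((Algebra.ofId R (IsLocalRing.ResidueField R)).comp w₁) := by rw [h5]
    _ = redk (v.map w₁) := Pts.map_comp _ _ _
    _ = 1 := by
      rw [h4]
      exact Pts.map_one _

end Pool.Agent.Helper49.Tm
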